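import Pool.Agent.helper64.D2.SpecC

set_option autoImplicit false

open Filter Topology
open scoped commutatorElement

namespace Pool.Agent.helper64.D2

theorem GST_edge (X : ℝ → ℝ) (p q : ℝ) (hc : Continuous X) (h : ∀ x, x ∉ Set.Icc p q → X x = 0) :
    X p = 0 ∧ X q = 0 := by
  have hcl : IsClosed {x : ℝ | X x = 0} := isClosed_eq hc continuous_const
  constructor
  · have h1 : Set.Iio p ⊆ {x : ℝ | X x = 0} := fun x hx => h x (fun hh => absurd hh.1 (not_le.2 hx))
    have h2 := hcl.closure_subset_iff.2 h1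
    rw [closure_Iio] at h2
    exact h2 (le_refl p)
  · have h1 : Set.Ioi q ⊆ {x : ℝ | X x = 0} := fun x hx => h x (fun hh => absurd hh.2 (not_le.2 hx))
    have h2 := hcl.closure_subset_iff.2 h1
    rw [closure_Ioi] at h2
    exact h2 (le_refl q)

theorem GST : GST_stmt := by
  intro R T h X v X' θ p q hR hh hX hX0 hpq hT hv hX'
  obtain ⟨hXp, hXq⟩ := GST_edge X p q hX.continuous hX0
  have hg : ⁅T, R * h⁻¹⁆ * R = T * (R * h⁻¹) * T⁻¹ * h := by
    rw [commutatorElement_def]; group
  intro u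
  rw [hg, ev_mul, ev_mul, ev_mul, ev_mul]
  have hy : ev h u = u + X u / 2 := hh u
  have hhv : ev h (v u) = u + X u / 2 - θ := by
    rw [hh (v u)]; exact hv u
  rw [hy]
  by_cases hc : u + X u / 2 - θ ∈ Set.Icc p q
  · have h1 : ev T (u + X u / 2 - θ) = u + X u / 2 := by rw [hT _ hc]; ring
    have h2 : ev T⁻¹ (u + X u / 2) = u + X u / 2 - θ := by
      rw [← h1, ev_inv]
      rw [h1]
    have h3 : ev h⁻¹ (u + X u / 2 - θ) = v u := by rw [← hhv, ev_inv]
    have hhp : ev h p = p := by rw [hh p]; simp [hXp]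
    have hhq : ev h q = q := by rw [hh q]; simp [hXq]
    have hRp : ev R p = p := by rw [hR p]; simp [hXp]
    have hRq : ev R q = q := by rw [hR q]; simp [hXq]
    have hvp : p ≤ v u := by
      rw [← (ev_strictMono h).le_iff_le, hhp, hhv]; exact hc.1
    have hvq : v u ≤ q := by
      rw [← (ev_strictMono h).le_iff_le, hhq, hhv]; exact hc.2
    have hRv : ev R (v u) ∈ Set.Icc p q := by
      constructor
      · rw [← hRp]; exact ev_mono R hvp
      · rw [← hRq]; exact ev_mono R hvq
    rw [h2, h3, hT _ hRv, hR (v u), hX' u]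
    have := hv u
    linarith
  · have hz : ev T⁻¹ (u + X u / 2) ∉ Set.Icc p q := by
      intro hz
      have h1 := hT _ hz
      rw [ev_inv'] at h1
      apply hc
      have : u + X u / 2 - θ = ev T⁻¹ (u + X u / 2) := by linarith
      rw [this]; exact hz
    have hXz := hX0 _ hz
    have h4 : ev h (ev T⁻¹ (u + X u / 2)) = ev T⁻¹ (u + X u / 2) := by
      rw [hh]; simp [hXz]
    have h5 : ev h⁻¹ (ev T⁻¹ (u + X u / 2)) = ev T⁻¹ (u + X u / 2) := by
      conv_lhs => rw [← h4]
      rw [ev_inv]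
    have h6 : ev R (ev T⁻¹ (u + X u / 2)) = ev T⁻¹ (u + X u / 2) := by
      rw [hR]; simp [hXz]
    rw [h5, h6, ev_inv']
    have hXy := hX0 _ hc
    have h7 : ev h (u + X u / 2 - θ) = u + X u / 2 - θ := by
      rw [hh]; simp [hXy]
    have h8 : v u = u + X u / 2 - θ := by
      apply (ev_strictMono h).injective
      rw [hhv, h7]
    rw [hX' u, h8, hXy]
    ring

end Pool.Agent.helper64.D2
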